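import Mathlib
import Pool.Agent.Q73.AD.Fin
import Pool.Agent.Q73.AD.TR1
import Pool.Agent.Q63.ISE.Man

/-!
# The average doubling index over wavelength-scale discs is bounded, on all closed surfaces (Q1)

For every closed connected Riemannian surface `(M, g)` and all `C, C₁, C₂ > 0` there is `A` such that for
every eigenfunction and every admissible covering by discs of radius `C / √lam` the average of the doubling
indices of the discs is at most `A`.

The surface is a Riemannian manifold of dimension two in the sense of Mathlib, with its geodesic distance. It has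
isothermal charts by `Pool.Agent.Q63.ISE.atlas`; for surfaces given by isothermal charts the bound is
`Pool.Agent.Q73.AD.fin5` (both are helper files of the starting tree).

Outline of the proof in these files. If `Δφ_j + q_j φ_j = 0` with `|q_j|, |∇q_j| ≤ κ_j²` and growth exponents
`N_j`, `N_j / κ_j → ∞`, then the limits of `|φ_j|^(1/N_j)` are log-subharmonic (Carleman inequality with the
weight `e^(-N(x - a x²))` in a conformal coordinate). Hence the growth exponents of the `M²` subsquares of a
square have a sum of at most `C M` times the exponent of the square as long as this is much larger than the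
one of the equation, and the loss disappears on the squares on which the solution is close to an exponential
with a large frequency; iteration over the scales down to the wavelength scale.
-/

set_option autoImplicit false
open MeasureTheory Filter Topology Complex Bundle
open scoped ContDiff Manifold

namespace Run7.h341.AllClosedSurfaces

noncomputable section

universe u v

/-! ### Riemannian manifolds of dimension two in the sense of Mathlib, modelled on a real normed space `E`
with a basis `b` of two vectors (for instance the Euclidean plane) -/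

section

variable {E : Type v} [NormedAddCommGroup E] [NormedSpace ℝ E] (b : Module.Basis (Fin 2) ℝ E)
  {M : Type u} [TopologicalSpace M] [ChartedSpace E M]

/-- the coordinate vector `∂_i` of the chart at `x₀`, at the point with coordinates `z` -/
def coordVec (x₀ : M) (z : E) (i : Fin 2) :
    TangentSpace 𝓘(ℝ, E) ((extChartAt 𝓘(ℝ, E) x₀).symm z) :=
  mfderiv 𝓘(ℝ, E) 𝓘(ℝ, E) (extChartAt 𝓘(ℝ, E) x₀).symm z (b i)

/-- the matrix `g_ij = ⟨∂_i, ∂_j⟩` of the metric in the chart at `x₀` -/
def metricMatrix [RiemannianBundle (fun x : M => TangentSpace 𝓘(ℝ, E) x)] (x₀ : M) (z : E) :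
    Matrix (Fin 2) (Fin 2) ℝ :=
  Matrix.of fun i j => inner ℝ (coordVec b x₀ z i) (coordVec b x₀ z j)

/-- the Laplace-Beltrami operator in coordinates: `(det g)^(-1/2) ∑_i ∂_i ((det g)^(1/2) ∑_j g^ij ∂_j h)` -/
def laplaceBeltrami (g : E → Matrix (Fin 2) (Fin 2) ℝ) (h : E → ℝ) (z : E) : ℝ :=
  (√((g z).det))⁻¹ * ∑ i, fderiv ℝ (fun y => √((g y).det) *
    ∑ j, (g y)⁻¹ i j * fderiv ℝ h y (b j)) z (b i)

/-- `f` is a real smooth eigenfunction on the Riemannian manifold `M`: `Δ_g f + lam f = 0`, `f ≢ 0` -/
structure IsEigenfunction [RiemannianBundle (fun x : M => TangentSpace 𝓘(ℝ, E) x)] (lam : ℝ)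
    (f : M → ℝ) : Prop where
  smooth : ContMDiff 𝓘(ℝ, E) 𝓘(ℝ, ℝ) ∞ f
  eq : ∀ x₀ : M, ∀ z ∈ (extChartAt 𝓘(ℝ, E) x₀).target,
    laplaceBeltrami b (metricMatrix b x₀) (fun y => f ((extChartAt 𝓘(ℝ, E) x₀).symm y)) z
      + lam * f ((extChartAt 𝓘(ℝ, E) x₀).symm z) = 0
  ne : ∃ x, f x ≠ 0

end

/-- the doubling index of `f` on the geodesic disc with centre `x` and radius `r` -/
def doubling {M : Type u} [MetricSpace M] (f : M → ℝ) (x : M) (r : ℝ) : ℝ :=
  Real.logb 2 (sSup ((fun y => |f y|) '' Metric.ball x (2 * r)) /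
    sSup ((fun y => |f y|) '' Metric.ball x r))

/-- The geodesic discs of radius `C / √lam` with centres `x i` are an admissible covering for `f` with
constants `C`, `C₁`, `C₂`: they cover `M`, their number is between `lam / C₂` and `C₂ lam`, every point is in at
most `C₁` of them, and `f` vanishes at the centres. -/
structure Admissible {M : Type u} [MetricSpace M] (f : M → ℝ) (lam C C₁ C₂ : ℝ) {κ : Type}
    [Fintype κ] (x : κ → M) : Prop where
  cover : ∀ y : M, ∃ i, y ∈ Metric.ball (x i) (C / Real.sqrt lam)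
  card_ge : C₂⁻¹ * lam ≤ (Fintype.card κ : ℝ)
  card_le : (Fintype.card κ : ℝ) ≤ C₂ * lam
  mult : ∀ y : M, ({i | y ∈ Metric.ball (x i) (C / Real.sqrt lam)}.ncard : ℝ) ≤ C₁
  zero : ∀ i, f (x i) = 0

/-- **The average doubling index is bounded**, on every closed connected Riemannian surface (smooth Riemannian
manifold of dimension two, in the sense of Mathlib, with its geodesic distance). -/
theorem result : ∀ (E : Type v) [NormedAddCommGroup E] [NormedSpace ℝ E] (b : Module.Basis (Fin 2) ℝ E)
    (M : Type u) [MetricSpace M] [ChartedSpace E M] [IsManifold 𝓘(ℝ, E) ∞ M]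
    [RiemannianBundle (fun x : M => TangentSpace 𝓘(ℝ, E) x)]
    [IsContMDiffRiemannianBundle 𝓘(ℝ, E) ∞ E (fun x : M => TangentSpace 𝓘(ℝ, E) x)]
    [IsRiemannianManifold 𝓘(ℝ, E) M] [CompactSpace M] [ConnectedSpace M],
    ∀ C C₁ C₂ : ℝ, 0 < C → 0 < C₁ → 0 < C₂ → ∃ A : ℝ,
      ∀ (lam : ℝ) (f : M → ℝ), 0 < lam → IsEigenfunction b lam f →
      ∀ (κ : Type) [Fintype κ] (x : κ → M), Admissible f lam C C₁ C₂ x →
        (∑ i, doubling f (x i) (C / Real.sqrt lam)) / (Fintype.card κ : ℝ) ≤ A := by
  intro E _ _ b M _ _ _ _ _ _ _ _ C C₁ C₂ hC hC₁ hC₂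
  obtain ⟨U, φ, ρ, hR, -, hE⟩ := Pool.Agent.Q63.ISE.atlas b M
  have hR' : Pool.Agent.Q73.AD.Riem U φ ρ := ⟨hR.dom, hR.inj, hR.cont,
    hR.opn, hR.cover, hR.pos, hR.dens, hR.trans, hR.geod⟩
  have hatl := Pool.Agent.Q73.AD.tr1 M M U φ ρ hR'
  obtain ⟨A, -, hA⟩ := Pool.Agent.Q73.AD.fin5.{u, u} M M U φ ρ hatl
    (fun i z hz => (hR.pos i z hz).le) C C₁ C₂ hC hC₁ hC₂
  refine ⟨A, fun lam f hlam hf κ _ x hx => ?_⟩
  exact hA lam f κ x hlam (hE lam f ⟨hf.smooth, hf.eq⟩) hf.ne hx.mult hx.card_ge

end

end Run7.h341.AllClosedSurfaces
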