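import Pool.Agent.H638.IB.Final

/-!
# Iterated intersection bodies converge to the Euclidean ball

In dimension `n ≥ 3` the iterated intersection bodies `I^m K` of every origin-symmetric convex body `K`
converge to the Euclidean ball in the Banach-Mazur distance, uniformly in `K`.

The proof is that of the project `Pool.Agent.H638.IB` of the starting tree (statement `S_UNI`): the functional
`vol (I K) / vol (K) ^ (n - 1)` increases strictly under iteration away from ellipsoids and is bounded, by the
equality case of a Busemann-Petty type centroid inequality, the bodies are compact up to linear maps, and linear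
images of the ball are attracting.
-/

set_option autoImplicit false

open MeasureTheory Set Filter Topology Metric
open scoped Pointwise

namespace Run7.h341.IteratesConverge

/-- Euclidean `n`-space. -/
abbrev E (n : ℕ) : Type := EuclideanSpace ℝ (Fin n)

/-- The closed unit ball. -/
def unitBall (n : ℕ) : Set (E n) := closedBall 0 1

/-- Origin-symmetric convex bodies: compact, convex, with nonempty interior and `K = -K`. -/
structure IsSymConvexBody {n : ℕ} (K : Set (E n)) : Prop where
  isCompact : IsCompact K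
  convex : Convex ℝ K
  interior_nonempty : (interior K).Nonempty
  neg_mem : ∀ x ∈ K, -x ∈ K

/-- The hyperplane through the origin orthogonal to `u`. -/
noncomputable abbrev hyp {n : ℕ} (u : E n) : Submodule ℝ (E n) := (ℝ ∙ u)ᗮ

/-- Lebesgue measure of the hyperplane `hyp u`. -/
noncomputable abbrev hypVol {n : ℕ} (u : E n) : Measure (hyp u) := volume

/-- The `(n-1)`-dimensional volume of the section of `K` by the hyperplane through the origin
orthogonal to `u`. -/
noncomputable def secVol {n : ℕ} (K : Set (E n)) (u : E n) : ℝ :=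
  (hypVol u {y : hyp u | (y : E n) ∈ K}).toReal

/-- The intersection body: the star body whose radial function is `secVol K` on unit vectors. -/
def interBody {n : ℕ} (K : Set (E n)) : Set (E n) :=
  {x | ∃ u : E n, ‖u‖ = 1 ∧ ∃ r : ℝ, 0 ≤ r ∧ r ≤ secVol K u ∧ x = r • u}

/-- The image of a set under an invertible linear map. -/
def linImage {n : ℕ} (T : E n ≃ₗ[ℝ] E n) (A : Set (E n)) : Set (E n) := T '' A

/-- The Banach-Mazur distance `inf {lam ≥ 1 : B ⊆ T A ⊆ lam B for some invertible linear T}`. -/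
noncomputable def distBM {n : ℕ} (A B : Set (E n)) : ℝ :=
  sInf {lam : ℝ | 1 ≤ lam ∧ ∃ T : E n ≃ₗ[ℝ] E n, B ⊆ linImage T A ∧ linImage T A ⊆ lam • B}

theorem body_iff {n : ℕ} (K : Set (E n)) : IsSymConvexBody K ↔ Pool.Agent.H638.IB.Body K :=
  ⟨fun h => ⟨h.1, h.2, h.3, h.4⟩, fun h => ⟨h.1, h.2, h.3, h.4⟩⟩

theorem near_dist {n : ℕ} {ε : ℝ} (hε : 0 < ε) {K : Set (E n)}
    (h : Pool.Agent.H638.IB.Near ε K) : 1 ≤ distBM K (unitBall n) ∧ distBM K (unitBall n) ≤ 1 + ε := by
  obtain ⟨T, h1, h2⟩ := h
  have hmem : (1 + ε) ∈ {lam : ℝ | 1 ≤ lam ∧ ∃ T : E n ≃ₗ[ℝ] E n, unitBall n ⊆ linImage T K ∧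
      linImage T K ⊆ lam • unitBall n} := by
    refine ⟨by linarith, T, h1, ?_⟩
    have e : (1 + ε) • unitBall n = closedBall 0 (1 + ε) := by
      unfold unitBall
      rw [smul_unitClosedBall, Real.norm_of_nonneg (by linarith)]
    rw [e]
    exact h2
  constructor
  · exact le_csInf ⟨_, hmem⟩ fun x hx => hx.1
  · exact csInf_le ⟨1, fun x hx => hx.1⟩ hmem

/-- Let `n ≥ 3`. For every origin-symmetric convex body `K` in `ℝ^n` the Banach-Mazur distance of the iterated
intersection body `I^m K` to the Euclidean ball tends to `1`, and this is uniform in `K`: for every `ε > 0`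
there is `m₀` such that the distance is at most `1 + ε` for all `m ≥ m₀` and all `K`. -/
theorem result (n : ℕ) (hn : 3 ≤ n) :
    (∀ K : Set (E n), IsSymConvexBody K →
      Tendsto (fun m : ℕ => distBM (interBody^[m] K) (unitBall n)) atTop (𝓝 1)) ∧
    ∀ ε : ℝ, 0 < ε → ∃ m₀ : ℕ, ∀ m : ℕ, m₀ ≤ m → ∀ K : Set (E n), IsSymConvexBody K →
      distBM (interBody^[m] K) (unitBall n) ≤ 1 + ε := by
  obtain ⟨N, rfl⟩ : ∃ N, n = N + 1 := ⟨n - 1, by omega⟩
  have key : ∀ ε : ℝ, 0 < ε → ∃ m₀ : ℕ, ∀ m : ℕ, m₀ ≤ m → ∀ K : Set (E (N + 1)), IsSymConvexBody K →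
      1 ≤ distBM (interBody^[m] K) (unitBall (N + 1)) ∧
        distBM (interBody^[m] K) (unitBall (N + 1)) ≤ 1 + ε := by
    intro ε hε
    obtain ⟨M, hM⟩ := Pool.Agent.H638.IB.UNI_final N (by omega) ε hε
    refine ⟨M, fun m hm K hK => ?_⟩
    exact near_dist hε (hM m hm K ((body_iff K).1 hK)).2
  refine ⟨fun K hK => ?_, fun ε hε => ?_⟩
  · rw [Metric.tendsto_atTop]
    intro ε hε
    obtain ⟨m₀, h⟩ := key (ε / 2) (by linarith)
    refine ⟨m₀, fun m hm => ?_⟩
    obtain ⟨h1, h2⟩ := h m hm K hK
    rw [Real.dist_eq, abs_of_nonneg (by linarith)]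
    linarith
  · obtain ⟨m₀, h⟩ := key ε hε
    exact ⟨m₀, fun m hm K hK => (h m hm K hK).2⟩

end Run7.h341.IteratesConverge
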