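import Mathlib

/-! Polynomial numerical indices of `C(K, X)` for complex `X` (tools for `S05335`). -/

set_option autoImplicit false
set_option linter.unusedSectionVars false

namespace Pool.Agent.Run7.h341.PNI

variable {k : ℕ}

/-- Lipschitz bound on the unit ball for the polynomial of a multilinear map. -/
theorem lip {E G : Type} [NormedAddCommGroup E] [NormedSpace ℂ E] [NormedAddCommGroup G]
    [NormedSpace ℂ G] (B : ContinuousMultilinearMap ℂ (fun _ : Fin k => E) G) (u v : E)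
    (hu : ‖u‖ ≤ 1) (hv : ‖v‖ ≤ 1) :
    ‖B (fun _ => u) - B (fun _ => v)‖ ≤ ‖B‖ * k * ‖u - v‖ := by
  have h := B.norm_image_sub_le (fun _ => u) (fun _ => v)
  have h1 : ‖(fun _ : Fin k => u)‖ ≤ 1 := (pi_norm_le_iff_of_nonneg zero_le_one).2 fun _ => hu
  have h2 : ‖(fun _ : Fin k => v)‖ ≤ 1 := (pi_norm_le_iff_of_nonneg zero_le_one).2 fun _ => hv
  have h3 : ‖(fun _ : Fin k => u) - (fun _ : Fin k => v)‖ ≤ ‖u - v‖ :=
    (pi_norm_le_iff_of_nonneg (norm_nonneg _)).2 fun _ => le_rfl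
  have h4 : max ‖(fun _ : Fin k => u)‖ ‖(fun _ : Fin k => v)‖ ^ (Fintype.card (Fin k) - 1) ≤ 1 :=
    pow_le_one₀ (le_trans (norm_nonneg _) (le_max_left _ _)) (max_le h1 h2)
  refine h.trans ?_
  rw [Fintype.card_fin] at h4 ⊢
  have h5 : 0 ≤ ‖B‖ * (k : ℝ) := by positivity
  calc ‖B‖ * (k : ℝ) * max ‖(fun _ : Fin k => u)‖ ‖(fun _ : Fin k => v)‖ ^ (k - 1)
        * ‖(fun _ : Fin k => u) - (fun _ : Fin k => v)‖
      ≤ ‖B‖ * (k : ℝ) * 1 * ‖u - v‖ := by gcongr
    _ = ‖B‖ * k * ‖u - v‖ := by ring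

theorem bd {E G : Type} [NormedAddCommGroup E] [NormedSpace ℂ E] [NormedAddCommGroup G]
    [NormedSpace ℂ G] (B : ContinuousMultilinearMap ℂ (fun _ : Fin k => E) G) (u : E)
    (hu : ‖u‖ ≤ 1) : ‖B (fun _ => u)‖ ≤ ‖B‖ := by
  refine (B.le_opNorm _).trans ?_
  have : ∏ _i : Fin k, ‖u‖ ≤ 1 := by
    rw [Finset.prod_const]
    exact pow_le_one₀ (norm_nonneg _) hu
  calc ‖B‖ * ∏ i : Fin k, ‖(fun _ => u) i‖ ≤ ‖B‖ * 1 := by
        exact mul_le_mul_of_nonneg_left this (norm_nonneg _)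
    _ = ‖B‖ := mul_one _

section pointwise

variable {X : Type} [NormedAddCommGroup X] [NormedSpace ℂ X]
  {K : Type} [TopologicalSpace K] [CompactSpace K]

/-- The pointwise multilinear map on `C(K, X)`. -/
noncomputable def ptw (K : Type) [TopologicalSpace K] [CompactSpace K]
    (A : ContinuousMultilinearMap ℂ (fun _ : Fin k => X) X) :
    ContinuousMultilinearMap ℂ (fun _ : Fin k => C(K, X)) C(K, X) :=
  MultilinearMap.mkContinuous
    { toFun := fun g => ⟨fun t => A (fun i => g i t),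
        A.cont.comp (continuous_pi fun i => (g i).continuous)⟩
      map_update_add' := by
        intro _ g i x y
        ext t
        simp only [ContinuousMap.coe_mk, ContinuousMap.coe_add, Pi.add_apply]
        have e : ∀ z : C(K, X), (fun j => (Function.update g i z) j t)
            = Function.update (fun j => g j t) i (z t) := by
          intro z
          funext j
          by_cases h : j = i
          · subst h; simp
          · simp [Function.update_of_ne h]
        rw [e, e, e, ContinuousMap.add_apply]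
        convert A.map_update_add (fun j => g j t) i (x t) (y t)
      map_update_smul' := by
        intro _ g i c x
        ext t
        simp only [ContinuousMap.coe_mk, ContinuousMap.coe_smul, Pi.smul_apply]
        have e : ∀ z : C(K, X), (fun j => (Function.update g i z) j t)
            = Function.update (fun j => g j t) i (z t) := by
          intro z
          funext j
          by_cases h : j = i
          · subst h; simp
          · simp [Function.update_of_ne h]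
        rw [e, e, ContinuousMap.smul_apply]
        convert A.map_update_smul (fun j => g j t) i c (x t) }
    ‖A‖ (by
      intro g
      refine (ContinuousMap.norm_le _ (by positivity)).2 fun t => ?_
      refine (A.le_opNorm _).trans ?_
      refine mul_le_mul_of_nonneg_left ?_ (norm_nonneg _)
      exact Finset.prod_le_prod (fun i _ => norm_nonneg _) fun i _ => (g i).norm_coe_le_norm t)

theorem ptw_apply (A : ContinuousMultilinearMap ℂ (fun _ : Fin k => X) X)
    (g : Fin k → C(K, X)) (t : K) : ptw K A g t = A (fun i => g i t) := rfl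

/-- The numerical radius of the pointwise polynomial is at most that of the polynomial. -/
theorem harris (A : ContinuousMultilinearMap ℂ (fun _ : Fin k => X) X) (g : C(K, X))
    (φ : C(K, X) →L[ℂ] ℂ) (hg : ‖g‖ = 1) (hφ : ‖φ‖ = 1) (hφg : φ g = 1) (ε : ℝ) (hε : 0 < ε) :
    ∃ (z : X) (f : X →L[ℂ] ℂ), ‖z‖ = 1 ∧ ‖f‖ = 1 ∧ f z = 1 ∧
      ‖φ (ptw K A (fun _ => g))‖ - ε < ‖f (A (fun _ => z))‖ := by
  set s : ℝ := ‖φ (ptw K A (fun _ => g))‖ with hs
  have hs0 : 0 ≤ s := norm_nonneg _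
  -- a unimodular number
  obtain ⟨θ, hθ, hθs⟩ : ∃ θ : ℂ, ‖θ‖ = 1 ∧ θ * φ (ptw K A (fun _ => g)) = (s : ℂ) := by
    by_cases h0 : φ (ptw K A (fun _ => g)) = 0
    · refine ⟨1, by simp, ?_⟩
      rw [hs, h0]; simp
    · have hne : s ≠ 0 := by rw [hs]; exact norm_ne_zero_iff.2 h0
      refine ⟨(s : ℂ) / φ (ptw K A (fun _ => g)), ?_, ?_⟩
      · rw [norm_div, Complex.norm_real, Real.norm_eq_abs, abs_of_nonneg hs0, ← hs]
        exact div_self hne
      · exact div_mul_cancel₀ _ h0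
  set M : ℝ := ‖A‖ with hM
  have hM0 : 0 ≤ M := norm_nonneg _
  set α : ℝ := ε / (2 * k * M ^ 2 + 1) with hα
  have hden : 0 < 2 * (k : ℝ) * M ^ 2 + 1 := by positivity
  have hα0 : 0 < α := by positivity
  have hαε : 2 * k * M ^ 2 * α < ε := by
    rw [hα]
    rw [mul_div_assoc', div_lt_iff₀ hden]
    nlinarith
  set G : C(K, X) := g + ((α : ℂ) * θ) • ptw K A (fun _ => g) with hG
  have h1 : φ G = ((1 + α * s : ℝ) : ℂ) := by
    rw [hG, map_add, map_smul, hφg, smul_eq_mul, mul_assoc, hθs]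
    push_cast; ring
  have h2 : 1 + α * s ≤ ‖G‖ := by
    have h3 := φ.le_opNorm G
    rw [h1, hφ, one_mul, Complex.norm_real, Real.norm_eq_abs,
      abs_of_nonneg (by positivity)] at h3
    exact h3
  obtain ⟨t, ht⟩ : ∃ t : K, 1 + α * s ≤ ‖G t‖ := by
    by_contra hcon
    push Not at hcon
    have := (G.norm_lt_iff (M := 1 + α * s) (by positivity)).2 hcon
    linarith
  set u : X := g t with hu
  have hu1 : ‖u‖ ≤ 1 := by rw [hu, ← hg]; exact g.norm_coe_le_norm t
  set w : X := G t with hw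
  have hwu : w = u + ((α : ℂ) * θ) • A (fun _ => u) := by
    rw [hw, hG, ContinuousMap.add_apply, ContinuousMap.smul_apply, ptw_apply]
  have hw1 : 1 ≤ ‖w‖ := le_trans (by nlinarith) ht
  have hw0 : ‖w‖ ≠ 0 := by linarith
  obtain ⟨f, hf1, hfw'⟩ := exists_dual_vector ℂ w hw0
  have hfw : f w = ((‖w‖ : ℝ) : ℂ) := hfw'
  have hPu : ‖A (fun _ => u)‖ ≤ M := bd A u hu1
  have hdiff : ‖w - u‖ ≤ α * M := by
    rw [hwu, add_sub_cancel_left, norm_smul, norm_mul, hθ, mul_one, Complex.norm_real,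
      Real.norm_eq_abs, abs_of_pos hα0]
    exact mul_le_mul_of_nonneg_left hPu hα0.le
  have hwn : ‖w‖ ≤ 1 + α * M := by
    have := norm_le_norm_add_norm_sub' w u
    linarith [hdiff, hu1, norm_sub_rev w u, this]
  -- the lower bound at `u`
  have hfu : s ≤ ‖f (A (fun _ => u))‖ := by
    have e1 : f u + (α : ℂ) * (θ * f (A (fun _ => u))) = (‖w‖ : ℂ) := by
      have := hfw
      rw [hwu, map_add, map_smul, smul_eq_mul, ← hwu, mul_assoc] at this
      exact this
    have e2 : (f u).re + α * (θ * f (A (fun _ => u))).re = ‖w‖ := by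
      have := congrArg Complex.re e1
      rw [Complex.add_re, Complex.re_ofReal_mul, Complex.ofReal_re] at this
      exact this
    have e3 : (f u).re ≤ 1 := by
      refine (Complex.re_le_norm _).trans ((f.le_opNorm u).trans ?_)
      rw [hf1, one_mul]; exact hu1
    have e4 : α * s ≤ α * (θ * f (A (fun _ => u))).re := by linarith
    have e5 : s ≤ (θ * f (A (fun _ => u))).re := le_of_mul_le_mul_left e4 hα0
    refine e5.trans ((Complex.re_le_norm _).trans ?_)
    rw [norm_mul, hθ, one_mul]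
  set z : X := ((‖w‖⁻¹ : ℝ) : ℂ) • w with hz
  have hz1 : ‖z‖ = 1 := by
    rw [hz, norm_smul, Complex.norm_real, Real.norm_eq_abs,
      abs_of_pos (by positivity : (0:ℝ) < ‖w‖⁻¹)]
    exact inv_mul_cancel₀ hw0
  have hfz : f z = 1 := by
    rw [hz, map_smul, hfw, smul_eq_mul, ← Complex.ofReal_mul, inv_mul_cancel₀ hw0]
    simp
  have hzw : ‖z - w‖ ≤ α * M := by
    have : z - w = ((‖w‖⁻¹ - 1 : ℝ) : ℂ) • w := by
      rw [hz]; push_cast; rw [sub_smul, one_smul]
    rw [this, norm_smul, Complex.norm_real, Real.norm_eq_abs]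
    have h6 : ‖w‖⁻¹ ≤ 1 := inv_le_one_of_one_le₀ hw1
    rw [abs_of_nonpos (by linarith)]
    have h7 : -(‖w‖⁻¹ - 1) * ‖w‖ = ‖w‖ - 1 := by
      field_simp
      ring
    rw [h7]; linarith
  have hzu : ‖z - u‖ ≤ 2 * α * M := by
    have : z - u = (z - w) + (w - u) := by abel
    rw [this]
    refine (norm_add_le _ _).trans ?_
    linarith
  refine ⟨z, f, hz1, hf1, hfz, ?_⟩
  have h8 : ‖f (A (fun _ => u)) - f (A (fun _ => z))‖ ≤ 2 * k * M ^ 2 * α := by
    rw [← map_sub]
    refine (f.le_opNorm _).trans ?_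
    rw [hf1, one_mul]
    refine (lip A u z hu1 hz1.le).trans ?_
    rw [norm_sub_rev]
    calc ‖A‖ * k * ‖z - u‖ ≤ ‖A‖ * k * (2 * α * M) :=
          mul_le_mul_of_nonneg_left hzu (by positivity)
      _ = 2 * k * M ^ 2 * α := by rw [← hM]; ring
  have h9 : ‖f (A (fun _ => u))‖ ≤ ‖f (A (fun _ => z))‖
      + ‖f (A (fun _ => u)) - f (A (fun _ => z))‖ := by
    have := norm_add_le (f (A (fun _ => z))) (f (A (fun _ => u)) - f (A (fun _ => z)))
    rwa [add_sub_cancel] at this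
  linarith

end pointwise

section forward

variable {X : Type} [NormedAddCommGroup X] [NormedSpace ℂ X]
  {K : Type} [TopologicalSpace K] [CompactSpace K]

/-- a bump function where `y` is near `y t0` -/
noncomputable def bump (y : C(K, X)) (t0 : K) (δ : ℝ) : C(K, ℝ) :=
  ⟨fun t => max 0 (1 - ‖y t - y t0‖ / δ), by fun_prop⟩

theorem bump_apply (y : C(K, X)) (t0 : K) (δ : ℝ) (t : K) :
    bump y t0 δ t = max 0 (1 - ‖y t - y t0‖ / δ) := rfl

theorem bump_nonneg (y : C(K, X)) (t0 : K) (δ : ℝ) (t : K) : 0 ≤ bump y t0 δ t :=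
  le_max_left _ _

theorem bump_le_one (y : C(K, X)) (t0 : K) (δ : ℝ) (hδ : 0 < δ) (t : K) :
    bump y t0 δ t ≤ 1 := by
  rw [bump_apply]
  refine max_le zero_le_one ?_
  have : 0 ≤ ‖y t - y t0‖ / δ := by positivity
  linarith

theorem bump_self (y : C(K, X)) (t0 : K) (δ : ℝ) : bump y t0 δ t0 = 1 := by
  rw [bump_apply]; simp

theorem bump_mul (y : C(K, X)) (t0 : K) (δ : ℝ) (hδ : 0 < δ) (t : K) :
    bump y t0 δ t * ‖y t - y t0‖ ≤ δ := by
  by_cases h : δ ≤ ‖y t - y t0‖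
  · have : bump y t0 δ t = 0 := by
      rw [bump_apply]
      refine max_eq_left ?_
      have : 1 ≤ ‖y t - y t0‖ / δ := (one_le_div hδ).2 h
      linarith
    rw [this, zero_mul]; exact hδ.le
  · push Not at h
    have h1 := bump_le_one y t0 δ hδ t
    have h2 := bump_nonneg y t0 δ t
    nlinarith [norm_nonneg (y t - y t0)]

/-- the multiplication of a function by a real function -/
noncomputable def smulf (ψ : C(K, ℝ)) (y : C(K, X)) : C(K, X) :=
  ⟨fun t => ((ψ t : ℝ) : ℂ) • y t, by fun_prop⟩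

theorem smulf_apply (ψ : C(K, ℝ)) (y : C(K, X)) (t : K) :
    smulf ψ y t = ((ψ t : ℝ) : ℂ) • y t := rfl

/-- Step 1: the point can be moved to a function whose value at `t0` has norm one. -/
theorem step1 [Nontrivial X] (B : ContinuousMultilinearMap ℂ (fun _ : Fin k => C(K, X)) C(K, X))
    (y : C(K, X)) (hy : ‖y‖ ≤ 1) (t0 : K) (ε : ℝ) (hε : 0 < ε) :
    ∃ y1 : C(K, X), ‖y1‖ ≤ 1 ∧ ‖y1 t0‖ = 1 ∧
      ‖B (fun _ => y) t0‖ - ε < ‖B (fun _ => y1) t0‖ := by
  set L : ℝ := ‖B‖ * k with hL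
  have hL0 : 0 ≤ L := by positivity
  set δ : ℝ := ε / (L + 1) with hδ
  have hδ0 : 0 < δ := by positivity
  have hLδ : L * δ < ε := by
    rw [hδ, mul_div_assoc', div_lt_iff₀ (by positivity)]
    nlinarith
  -- a unit vector in the direction of `y t0`
  obtain ⟨e, he, hre⟩ : ∃ e : X, ‖e‖ = 1 ∧ ((‖y t0‖ : ℝ) : ℂ) • e = y t0 := by
    by_cases h : y t0 = 0
    · obtain ⟨e, he⟩ := exists_norm_eq X (zero_le_one : (0:ℝ) ≤ 1)
      exact ⟨e, he, by rw [h]; simp⟩
    · have hn : ‖y t0‖ ≠ 0 := norm_ne_zero_iff.2 h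
      refine ⟨((‖y t0‖⁻¹ : ℝ) : ℂ) • y t0, ?_, ?_⟩
      · rw [norm_smul, Complex.norm_real, Real.norm_eq_abs, abs_of_nonneg (by positivity)]
        exact inv_mul_cancel₀ hn
      · rw [smul_smul, ← Complex.ofReal_mul, mul_inv_cancel₀ hn]
        simp
  set r : ℝ := ‖y t0‖ with hr
  have hr1 : r ≤ 1 := (y.norm_coe_le_norm t0).trans hy
  have hr0 : 0 ≤ r := norm_nonneg _
  set ψ := bump y t0 δ with hψ
  set a : C(K, X) := smulf (1 - ψ) y with ha
  set b : C(K, X) := smulf ψ (ContinuousMap.const K e) with hb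
  let F : ℂ → C(K, X) := fun l => a + l • b
  have hFt : ∀ l t, F l t = ((1 - ψ t : ℝ) : ℂ) • y t + l • (((ψ t : ℝ) : ℂ) • e) := by
    intro l t
    rfl
  have hFn : ∀ l : ℂ, ‖l‖ ≤ 1 → ‖F l‖ ≤ 1 := by
    intro l hl
    refine (ContinuousMap.norm_le _ zero_le_one).2 fun t => ?_
    rw [hFt]
    have h1 := bump_le_one y t0 δ hδ0 t
    have h2 := bump_nonneg y t0 δ t
    have h3 : ‖y t‖ ≤ 1 := (y.norm_coe_le_norm t).trans hy
    calc ‖((1 - ψ t : ℝ) : ℂ) • y t + l • (((ψ t : ℝ) : ℂ) • e)‖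
        ≤ ‖((1 - ψ t : ℝ) : ℂ) • y t‖ + ‖l • (((ψ t : ℝ) : ℂ) • e)‖ := norm_add_le _ _
      _ = (1 - ψ t) * ‖y t‖ + ‖l‖ * (ψ t * 1) := by
          rw [norm_smul, norm_smul, norm_smul, Complex.norm_real, Complex.norm_real,
            Real.norm_eq_abs, Real.norm_eq_abs, abs_of_nonneg (by linarith : (0:ℝ) ≤ 1 - ψ t),
            abs_of_nonneg h2, he]
      _ ≤ (1 - ψ t) * 1 + 1 * (ψ t * 1) := by
          have h4 : (0:ℝ) ≤ 1 - ψ t := by linarith
          gcongr
      _ = 1 := by ring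
  have hFr : ‖F r - y‖ ≤ δ := by
    refine (ContinuousMap.norm_le _ hδ0.le).2 fun t => ?_
    have h2 := bump_nonneg y t0 δ t
    have e1 : (F r - y) t = ((ψ t : ℝ) : ℂ) • (y t0 - y t) := by
      rw [ContinuousMap.sub_apply, hFt, smul_comm (r : ℂ), hre]
      push_cast
      rw [sub_smul, one_smul, smul_sub]
      abel
    rw [e1, norm_smul, Complex.norm_real, Real.norm_eq_abs, abs_of_nonneg h2, norm_sub_rev]
    exact bump_mul y t0 δ hδ0 t
  -- analytic function
  let h : ℂ → X := fun l => B (fun _ => F l) t0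
  have hd : Differentiable ℂ h := by
    have hF : Differentiable ℂ F := by
      show Differentiable ℂ (fun l : ℂ => a + l • b)
      fun_prop
    have hp : Differentiable ℂ (fun l : ℂ => (fun _ : Fin k => F l)) :=
      differentiable_pi.2 fun _ => hF
    have hB : Differentiable ℂ (fun v : Fin k → C(K, X) => B v) :=
      (B.contDiff (n := 1)).differentiable (by norm_num)
    have hE : Differentiable ℂ (fun v : C(K, X) => (ContinuousMap.evalCLM ℂ t0 : C(K, X) →L[ℂ] X) v) :=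
      (ContinuousMap.evalCLM ℂ t0 : C(K, X) →L[ℂ] X).differentiable
    exact hE.comp (hB.comp hp)
  obtain ⟨l, hl, hmax⟩ := Complex.exists_mem_frontier_isMaxOn_norm (f := h)
    (U := Metric.ball (0 : ℂ) 1) Metric.isBounded_ball ⟨0, by simp⟩ hd.diffContOnCl
  rw [frontier_ball (0 : ℂ) one_ne_zero] at hl
  rw [closure_ball (0 : ℂ) one_ne_zero] at hmax
  have hl1 : ‖l‖ = 1 := by simpa using hl
  have hm : ‖h r‖ ≤ ‖h l‖ := by
    have : (r : ℂ) ∈ Metric.closedBall (0 : ℂ) 1 := by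
      rw [mem_closedBall_zero_iff, Complex.norm_real, Real.norm_eq_abs, abs_of_nonneg hr0]
      exact hr1
    exact hmax this
  refine ⟨F l, hFn l hl1.le, ?_, ?_⟩
  · rw [hFt, bump_self]
    simp [norm_smul, hl1, he]
  · have h5 : ‖B (fun _ => y) t0 - B (fun _ => F r) t0‖ ≤ L * δ := by
      rw [← ContinuousMap.sub_apply]
      refine (ContinuousMap.norm_coe_le_norm _ t0).trans ?_
      have hr' : ‖(r : ℂ)‖ ≤ 1 := by
        rw [Complex.norm_real, Real.norm_eq_abs, abs_of_nonneg hr0]; exact hr1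
      refine (lip B y (F r) hy (hFn r hr')).trans ?_
      rw [norm_sub_rev]
      exact mul_le_mul_of_nonneg_left hFr hL0
    have h6 : ‖B (fun _ => y) t0‖ ≤ ‖B (fun _ => F r) t0‖
        + ‖B (fun _ => y) t0 - B (fun _ => F r) t0‖ := by
      have := norm_add_le (B (fun _ => F r) t0) (B (fun _ => y) t0 - B (fun _ => F r) t0)
      rwa [add_sub_cancel] at this
    have h7 : ‖B (fun _ => F r) t0‖ ≤ ‖B (fun _ => F l) t0‖ := hm
    linarith

/-- Step 2: the linear extension operator. -/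
theorem step2 (y1 : C(K, X)) (hy : ‖y1‖ ≤ 1) (t0 : K) (h1 : ‖y1 t0‖ = 1) (δ : ℝ) (hδ : 0 < δ) :
    ∃ Φ : X →L[ℂ] C(K, X), (∀ x, ‖Φ x‖ ≤ ‖x‖) ∧ (∀ x, Φ x t0 = x) ∧
      ‖Φ (y1 t0) - y1‖ ≤ δ := by
  obtain ⟨f, hf1, hf⟩ := exists_dual_vector ℂ (y1 t0) (by rw [h1]; exact one_ne_zero)
  set ψ := bump y1 t0 δ with hψ
  have hb0 : ∀ t, 0 ≤ ψ t := bump_nonneg y1 t0 δ
  have hb1 : ∀ t, ψ t ≤ 1 := bump_le_one y1 t0 δ hδ
  have key : ∀ x t, ‖((ψ t : ℝ) : ℂ) • x + f x • (((1 - ψ t : ℝ) : ℂ) • y1 t)‖ ≤ ‖x‖ := by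
    intro x t
    have h3 : ‖y1 t‖ ≤ 1 := (y1.norm_coe_le_norm t).trans hy
    have h4 : (0:ℝ) ≤ 1 - ψ t := by linarith [hb1 t]
    have h5 : ‖f x‖ ≤ ‖x‖ := by
      have := f.le_opNorm x
      rwa [hf1, one_mul] at this
    calc ‖((ψ t : ℝ) : ℂ) • x + f x • (((1 - ψ t : ℝ) : ℂ) • y1 t)‖
        ≤ ‖((ψ t : ℝ) : ℂ) • x‖ + ‖f x • (((1 - ψ t : ℝ) : ℂ) • y1 t)‖ := norm_add_le _ _
      _ = ψ t * ‖x‖ + ‖f x‖ * ((1 - ψ t) * ‖y1 t‖) := by
          rw [norm_smul, norm_smul, norm_smul, Complex.norm_real, Complex.norm_real,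
            Real.norm_eq_abs, Real.norm_eq_abs, abs_of_nonneg h4, abs_of_nonneg (hb0 t)]
      _ ≤ ψ t * ‖x‖ + ‖x‖ * ((1 - ψ t) * 1) := by gcongr
      _ = ‖x‖ := by ring
  let Φ0 : X →ₗ[ℂ] C(K, X) :=
    { toFun := fun x => smulf ψ (ContinuousMap.const K x) + f x • smulf (1 - ψ) y1
      map_add' := by
        intro x x'
        ext t
        simp only [ContinuousMap.add_apply, ContinuousMap.smul_apply, smulf_apply,
          ContinuousMap.const_apply, map_add, add_smul, smul_add]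
        abel
      map_smul' := by
        intro c x
        ext t
        simp only [ContinuousMap.add_apply, ContinuousMap.smul_apply, smulf_apply,
          ContinuousMap.const_apply, map_smul, RingHom.id_apply, smul_add, smul_smul,
          smul_eq_mul]
        congr 1 <;> congr 1 <;> ring }
  have hΦt : ∀ x t, Φ0 x t = ((ψ t : ℝ) : ℂ) • x + f x • (((1 - ψ t : ℝ) : ℂ) • y1 t) :=
    fun x t => rfl
  have hΦn : ∀ x, ‖Φ0 x‖ ≤ 1 * ‖x‖ := by
    intro x
    rw [one_mul]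
    refine (ContinuousMap.norm_le _ (norm_nonneg _)).2 fun t => ?_
    rw [hΦt]; exact key x t
  refine ⟨Φ0.mkContinuous 1 hΦn, ?_, ?_, ?_⟩
  · intro x
    have := hΦn x
    rw [one_mul] at this
    exact this
  · intro x
    show Φ0 x t0 = x
    rw [hΦt, hψ, bump_self]
    simp
  · refine (ContinuousMap.norm_le _ hδ.le).2 fun t => ?_
    show ‖(Φ0 (y1 t0) - y1) t‖ ≤ δ
    have hf' : f (y1 t0) = 1 := by rw [hf, h1]; simp
    have e1 : (Φ0 (y1 t0) - y1) t = ((ψ t : ℝ) : ℂ) • (y1 t0 - y1 t) := by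
      rw [ContinuousMap.sub_apply, hΦt, hf', one_smul]
      push_cast
      rw [sub_smul, one_smul, smul_sub]
      abel
    rw [e1, norm_smul, Complex.norm_real, Real.norm_eq_abs, abs_of_nonneg (hb0 t), norm_sub_rev]
    exact bump_mul y1 t0 δ hδ t

end forward

end Pool.Agent.Run7.h341.PNI
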